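import Pool.Agent.helper24.NR.Spec

/-!
# Row nr:EUL (helper15) of project NR (helper24)
-/

set_option autoImplicit false

namespace Pool.Agent.NR

open Finset

/-- Row EUL. -/
theorem EUL (hSYM : SYM_stmt) (hEXN : EXN_stmt) (hEDG : EDG_stmt) (hHLO : HLO_stmt)
    (hHSI : HSI_stmt) (hHSO : HSO_stmt) : EUL_stmt := by
  classical
  intro V F _ _ vs es x y hB
  have hsymm : WW y x = WW x y := by
    unfold WW
    ext v
    simp only [mem_filter, mem_univ, true_and]
    exact and_comm
  have h1 := hEXN V F vs es x y hB
  have h2 := hEXN V F vs es y x (hSYM V F vs es x y hB)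
  rw [hsymm] at h2
  have h3 := hEDG V F vs es x y hB
  have h4 := hHSI V F vs es x y hB
  have h5 := hHSO V F vs es x y hB
  have h6 : 4 * (HH vs x y).card ≤ ∑ H ∈ HH vs x y,
      (2 * ((es H).filter fun e => e ∈ IN vs es x y).card +
        ((es H).filter fun e => e ∉ IN vs es x y).card) := by
    have h7 : ∑ _H ∈ HH vs x y, 4 ≤ ∑ H ∈ HH vs x y,
        (2 * ((es H).filter fun e => e ∈ IN vs es x y).card +
          ((es H).filter fun e => e ∉ IN vs es x y).card) :=
      Finset.sum_le_sum fun H hH => hHLO V F vs es x y hB H hH
    rw [Finset.sum_const, smul_eq_mul, mul_comm] at h7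
    exact h7
  rw [Finset.sum_add_distrib, ← Finset.mul_sum] at h6
  -- the number of the vertices
  have hV : (WW x y).card + 2 = Fintype.card V := by
    have e1 : WW x y = ((univ : Finset V).erase x).erase y := by
      unfold WW
      ext v
      simp only [mem_filter, mem_univ, true_and, mem_erase, and_true]
      exact and_comm
    have hy : y ∈ (univ : Finset V).erase x := by
      rw [mem_erase]
      exact ⟨hB.ne.symm, mem_univ y⟩
    have e2 := Finset.card_erase_add_one hy
    have e3 := Finset.card_erase_add_one (mem_univ x)
    rw [← e1] at e2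
    rw [Finset.card_univ] at e3
    omega
  -- the number of the faces
  have hF : (FX vs x).card + (FX vs y).card + (HH vs x y).card = Fintype.card F := by
    have d1 : Disjoint (FX vs x) (FX vs y) := by
      rw [Finset.disjoint_left]
      intro f hf hf'
      unfold FX at hf hf'
      rw [mem_filter] at hf hf'
      exact hB.noface f hf.2 hf'.2
    have d2 : Disjoint (FX vs x ∪ FX vs y) (HH vs x y) := by
      rw [Finset.disjoint_left]
      intro f hf hf'
      unfold HH at hf'
      unfold FX at hf
      simp only [mem_union, mem_filter, mem_univ, true_and] at hf hf'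
      rcases hf with hf | hf
      · exact hf'.1 hf
      · exact hf'.2 hf
    have d3 : (FX vs x ∪ FX vs y) ∪ HH vs x y = univ := by
      ext f
      unfold HH FX
      simp only [mem_union, mem_filter, mem_univ, true_and, iff_true]
      tauto
    rw [← Finset.card_union_of_disjoint d1, ← Finset.card_union_of_disjoint d2, d3,
      Finset.card_univ]
  omega

end Pool.Agent.NR
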